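import Pool.Agent.H95.ILV.Targets

/-!
# The levels are dense
-/

set_option autoImplicit false

open MeasureTheory AddCircle Filter Topology Pool.Agent.H87.Synth Pool.Agent.H23.Synth
  Pool.Agent.H95.ILV

namespace Pool.Agent.H81.ILV

theorem mm_pos (i : ℕ) : 1 ≤ mm i := Nat.le_add_left 1 _

theorem aa_zero (i : ℕ) : aa i 0 = mm i := by
  unfold aa
  rw [Nat.zero_div, pow_zero, one_mul, Nat.zero_mod, add_zero]

theorem kk_up (h1 : T_KA) (i : ℕ) : 2 * kk (i + 1) 0 ≤ 2 ^ 2 ^ (i + 10) := by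
  have hb : bb (i + 1) 0 ≤ Hh (i + 1) := by
    have := (h1 (i + 1)).2.2 0 (Nat.zero_le _)
    omega
  have hm : mm (i + 1) ≤ 2 ^ (i + 1 + 24) := (h1 (i + 1)).2.1
  have hm' : mm (i + 1) + 1 ≤ 2 ^ (i + 26) := by
    have h2 : 1 ≤ 2 ^ (i + 1 + 24) := Nat.one_le_two_pow
    have h3 : 2 ^ (i + 26) = 2 * 2 ^ (i + 1 + 24) := by
      rw [← pow_succ']
    omega
  have h2 : kk (i + 1) 0 ≤ 2 ^ Tt (i + 1) * (Hh (i + 1) * 2 ^ (i + 26)) := by
    unfold kk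
    rw [aa_zero]
    apply Nat.mul_le_mul_left
    calc Hh (i + 1) * mm (i + 1) + bb (i + 1) 0 ≤ Hh (i + 1) * mm (i + 1) + Hh (i + 1) := by omega
      _ = Hh (i + 1) * (mm (i + 1) + 1) := by ring
      _ ≤ _ := Nat.mul_le_mul_left _ hm'
  have h3 : 2 * (2 ^ Tt (i + 1) * (Hh (i + 1) * 2 ^ (i + 26))) =
      2 ^ (1 + (Tt (i + 1) + ((6 * (i + 1) + 110) + (i + 26)))) := by
    unfold Hh
    rw [← pow_add, ← pow_add, pow_add 2 1, pow_one]
  calc 2 * kk (i + 1) 0 ≤ 2 * (2 ^ Tt (i + 1) * (Hh (i + 1) * 2 ^ (i + 26))) :=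
        Nat.mul_le_mul_left _ h2
    _ = _ := h3
    _ ≤ 2 ^ 2 ^ (i + 10) := by
        apply Nat.pow_le_pow_right (by norm_num)
        have h4 : Tt (i + 1) = 2 ^ (i + 9) := rfl
        have h5 : 2 ^ (i + 10) = 2 * 2 ^ (i + 9) := by rw [← pow_succ']
        have h6 : 2 ^ (i + 9) = 512 * 2 ^ i := by rw [pow_add]; ring
        have h7 : i < 2 ^ i := Nat.lt_two_pow_self
        rw [h4]
        omega

theorem kk_low (i : ℕ) : 2 ^ 2 ^ (i + 8) ≤ kk i 0 := by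
  unfold kk
  rw [aa_zero]
  have h1 : 1 ≤ Hh i * mm i + bb i 0 := by
    have h2 : 1 ≤ Hh i := Nat.one_le_two_pow
    have h3 := Nat.mul_le_mul h2 (mm_pos i)
    omega
  exact Nat.le_mul_of_pos_right _ h1

theorem kk_lt (h3 : T_KE) (i : ℕ) : kk i 0 < kk (i + 1) 0 := by
  obtain ⟨h1, -, -, -, h2⟩ := h3 i
  exact h2 0 (by omega)

theorem kk_ge (h3 : T_KE) (i : ℕ) : i ≤ kk i 0 := by
  induction i with
  | zero => exact Nat.zero_le _
  | succ i ih => exact Nat.succ_le_of_lt (ih.trans_lt (kk_lt h3 i))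

/-- the region of `x` -/
theorem exists_region (h3 : T_KE) {x : ℝ} (hx : 2 * (kk 0 0 : ℝ) ≤ x) :
    ∃ i, 2 * (kk i 0 : ℝ) ≤ x ∧ x < 2 * (kk (i + 1) 0 : ℝ) := by
  classical
  have hex : ∃ i, x < 2 * (kk (i + 1) 0 : ℝ) := by
    obtain ⟨n, hn⟩ := exists_nat_gt x
    refine ⟨n, hn.trans_le ?_⟩
    have h1 : ((n + 1 : ℕ) : ℝ) ≤ (kk (n + 1) 0 : ℝ) := Nat.cast_le.2 (kk_ge h3 (n + 1))
    have h2 : (0 : ℝ) ≤ n := Nat.cast_nonneg n
    push_cast at h1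
    linarith
  refine ⟨Nat.find hex, ?_, Nat.find_spec hex⟩
  rcases Nat.eq_zero_or_pos (Nat.find hex) with h | h
  · rw [h]
    exact hx
  · obtain ⟨p, hp⟩ := Nat.exists_eq_succ_of_ne_zero h.ne'
    have h1 := Nat.find_min hex (m := p) (by omega)
    rw [not_lt] at h1
    rw [hp]
    exact h1

/-- one step -/
theorem step_le (h2 : T_KC) {i j : ℕ} (hj : j < Nn i) :
    (kk i (j + 1) : ℝ) ≤ kk i j * (1 + 2 / mm i) := by
  obtain ⟨hlt, h⟩ := h2 i j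
  obtain ⟨-, h⟩ := h hj
  have hm : (0 : ℝ) < mm i := Nat.cast_pos.2 (mm_pos i)
  have h4 : (mm i : ℝ) * ((kk i (j + 1) : ℝ) - kk i j) ≤ 2 * kk i j := by
    have h5 : ((mm i * (kk i (j + 1) - kk i j) : ℕ) : ℝ) ≤ ((2 * kk i j : ℕ) : ℝ) :=
      Nat.cast_le.2 h
    rw [Nat.cast_mul, Nat.cast_sub hlt.le, Nat.cast_mul, Nat.cast_ofNat] at h5
    exact h5
  have h6 : (kk i (j + 1) : ℝ) - kk i j ≤ 2 * kk i j / mm i := by
    rw [le_div_iff₀ hm]
    linarith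
  have h7 : (kk i j : ℝ) * (1 + 2 / mm i) = kk i j + 2 * kk i j / mm i := by
    field_simp
  linarith

/-- the next level, abstract form -/
theorem level_core {κ : ℕ → ℕ} {K J m : ℕ} (hm : 1 ≤ m) (hJ : 3 ≤ J) (hK : K ≤ κ J)
    (hstep : ∀ j < J, (κ (j + 1) : ℝ) ≤ κ j * (1 + 2 / m)) {x : ℝ} (hx : 2 * (κ 0 : ℝ) ≤ x)
    (_hx' : x < 2 * (K : ℝ)) :
    (∃ j, j + 1 < J - 1 ∧ x < 2 * (κ (j + 1) : ℝ) ∧ 2 * (κ (j + 1) : ℝ) ≤ x + 8 * x / m) ∨
      2 * (K : ℝ) ≤ x + 8 * x / m := by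
  classical
  have hm1 : (1 : ℝ) ≤ m := Nat.one_le_cast.2 hm
  have hx0 : (0 : ℝ) ≤ x := le_trans (by positivity) hx
  rcases lt_or_ge x (2 * (κ (J - 2) : ℝ)) with hc | hc
  · -- the level is in the region
    left
    have h5 : J - 3 + 1 = J - 2 := by omega
    have hex : ∃ j, x < 2 * (κ (j + 1) : ℝ) := ⟨J - 3, by rw [h5]; exact hc⟩
    have hle : Nat.find hex ≤ J - 3 := Nat.find_min' hex (by rw [h5]; exact hc)
    have hspec := Nat.find_spec hex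
    have hlow : 2 * (κ (Nat.find hex) : ℝ) ≤ x := by
      rcases Nat.eq_zero_or_pos (Nat.find hex) with h | h
      · rw [h]
        exact hx
      · obtain ⟨p, hp⟩ := Nat.exists_eq_succ_of_ne_zero h.ne'
        have h1 := Nat.find_min hex (m := p) (by omega)
        rw [not_lt] at h1
        rw [hp]
        exact h1
    generalize hj : Nat.find hex = j at hle hspec hlow
    refine ⟨j, by omega, hspec, ?_⟩
    have h5 := hstep j (by omega)
    calc 2 * (κ (j + 1) : ℝ) ≤ 2 * (κ j * (1 + 2 / m)) := by linarith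
      _ = (2 * κ j) * (1 + 2 / m) := by ring
      _ ≤ x * (1 + 2 / m) := mul_le_mul_of_nonneg_right hlow (by positivity)
      _ = x + 2 * x / m := by ring
      _ ≤ x + 8 * x / m := by
          have h6 : 2 * x / m ≤ 8 * x / m :=
            div_le_div_of_nonneg_right (by linarith) (by positivity)
          linarith
  · right
    have h5 := hstep (J - 1) (by omega)
    have h6 := hstep (J - 2) (by omega)
    have e2 : J - 1 + 1 = J := by omega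
    have e3 : J - 2 + 1 = J - 1 := by omega
    rw [e2] at h5
    rw [e3] at h6
    have h7 : (K : ℝ) ≤ κ J := Nat.cast_le.2 hK
    have hq : (0 : ℝ) ≤ 1 + 2 / m := by positivity
    calc 2 * (K : ℝ) ≤ 2 * (κ (J - 1) * (1 + 2 / m)) := by linarith
      _ ≤ 2 * ((κ (J - 2) * (1 + 2 / m)) * (1 + 2 / m)) := by
          have := mul_le_mul_of_nonneg_right h6 hq
          linarith
      _ = (2 * κ (J - 2)) * (1 + 2 / m) ^ 2 := by ring
      _ ≤ x * (1 + 2 / m) ^ 2 := mul_le_mul_of_nonneg_right hc (by positivity)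
      _ ≤ x * (1 + 8 / m) := by
          apply mul_le_mul_of_nonneg_left _ hx0
          have hi : (1 : ℝ) / m ≤ 1 := by
            rw [div_le_one (by linarith)]
            exact hm1
          have hi0 : (0 : ℝ) ≤ 1 / m := by positivity
          have e4 : (2 : ℝ) / m = 2 * (1 / m) := by ring
          have e5 : (8 : ℝ) / m = 8 * (1 / m) := by ring
          rw [e4, e5]
          nlinarith
      _ = x + 8 * x / m := by ring

theorem exists_level (h2 : T_KC) (h3 : T_KE) {x : ℝ} {i : ℕ} (hx : 2 * (kk i 0 : ℝ) ≤ x)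
    (hx' : x < 2 * (kk (i + 1) 0 : ℝ)) :
    ∃ N ∈ Lev MM kk, x < N ∧ (N : ℝ) ≤ x + 8 * x / mm i := by
  obtain ⟨h31, -, h33, h34, -⟩ := h3 i
  obtain ⟨h41, -⟩ := h3 (i + 1)
  rcases level_core (mm_pos i) h31 h34 (fun j hj => step_le h2 (hj.trans_le h33)) hx hx' with
    ⟨j, hj, hj1, hj2⟩ | h
  · have e2 : ((2 * kk i (j + 1) : ℕ) : ℝ) = 2 * (kk i (j + 1) : ℝ) := by
      rw [Nat.cast_mul, Nat.cast_ofNat]
    refine ⟨2 * kk i (j + 1), ⟨i, j + 1, hj, rfl⟩, ?_, ?_⟩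
    · rw [e2]
      exact hj1
    · rw [e2]
      exact hj2
  · have e2 : ((2 * kk (i + 1) 0 : ℕ) : ℝ) = 2 * (kk (i + 1) 0 : ℝ) := by
      rw [Nat.cast_mul, Nat.cast_ofNat]
    refine ⟨2 * kk (i + 1) 0, ⟨i + 1, 0, ?_, rfl⟩, ?_, ?_⟩
    · change 0 < JJ (i + 1) - 1
      omega
    · rw [e2]
      exact hx'
    · rw [e2]
      exact h

theorem pf_KH (h1 : T_KA) (h2 : T_KC) (h3 : T_KE) : T_KH := by
  refine ⟨2 * kk 0 0, fun x hx => ?_⟩
  obtain ⟨i, hi, hi'⟩ := exists_region h3 hx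
  obtain ⟨N, hN, hlt, hle⟩ := exists_level h2 h3 hi hi'
  refine ⟨N, hN, hlt, hle.trans ?_⟩
  have hm1 : (1 : ℝ) ≤ mm i := Nat.one_le_cast.2 (mm_pos i)
  have hlog2 : (1 : ℝ) / 2 ≤ Real.log 2 := by
    have := Real.log_two_gt_d9
    linarith
  have hlog2' : Real.log 2 ≤ 1 := by
    have := Real.log_two_lt_d9
    linarith
  have hxl : (2 : ℝ) ^ 2 ^ (i + 8) ≤ x := by
    have h5 : ((2 ^ 2 ^ (i + 8) : ℕ) : ℝ) ≤ (kk i 0 : ℝ) := Nat.cast_le.2 (kk_low i)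
    have h6 : (0 : ℝ) ≤ kk i 0 := Nat.cast_nonneg _
    rw [Nat.cast_pow, Nat.cast_ofNat] at h5
    linarith
  have hxu : x ≤ (2 : ℝ) ^ 2 ^ (i + 10) := by
    have h5 : ((2 * kk (i + 1) 0 : ℕ) : ℝ) ≤ ((2 ^ 2 ^ (i + 10) : ℕ) : ℝ) :=
      Nat.cast_le.2 (kk_up h1 i)
    rw [Nat.cast_pow, Nat.cast_mul, Nat.cast_ofNat] at h5
    linarith
  have hx0 : 0 < x := lt_of_lt_of_le (by positivity) hxl
  have hL0 : (2 : ℝ) ^ (i + 7) ≤ Real.log x := by
    have h5 := Real.log_le_log (by positivity) hxl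
    rw [Real.log_pow] at h5
    have h6 : ((2 ^ (i + 8) : ℕ) : ℝ) = 2 * 2 ^ (i + 7) := by
      rw [Nat.cast_pow, Nat.cast_ofNat, ← pow_succ']
    rw [h6] at h5
    have h7 : (0 : ℝ) < 2 ^ (i + 7) := by positivity
    nlinarith
  have hL1 : Real.log x ≤ 2 ^ (i + 10) := by
    have h5 := Real.log_le_log hx0 hxu
    rw [Real.log_pow] at h5
    have h6 : ((2 ^ (i + 10) : ℕ) : ℝ) = 2 ^ (i + 10) := by
      rw [Nat.cast_pow, Nat.cast_ofNat]
    rw [h6] at h5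
    have h7 : (0 : ℝ) < 2 ^ (i + 10) := by positivity
    nlinarith
  have hLpos : 0 < Real.log x := lt_of_lt_of_le (by positivity) hL0
  have hLL : ((i : ℝ) + 1) / 2 ≤ Real.log (Real.log x) := by
    have h5 := Real.log_le_log (by positivity) hL0
    rw [Real.log_pow] at h5
    push_cast at h5
    have h7 : (0 : ℝ) ≤ i := Nat.cast_nonneg i
    nlinarith
  have hkey : 8 / (mm i : ℝ) ≤ Real.log (Real.log x) ^ 10 / Real.log x := by
    rw [div_le_div_iff₀ (by linarith) hLpos]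
    have h5 : (((i : ℝ) + 1) / 2) ^ 10 ≤ Real.log (Real.log x) ^ 10 :=
      pow_le_pow_left₀ (by positivity) hLL 10
    have h6 : (2 : ℝ) ^ (i + 23) ≤ ((i : ℝ) + 1) ^ 10 * mm i := by
      have h7 := (h1 i).1
      have h8 : ((2 ^ (i + 23) : ℕ) : ℝ) ≤ (((i + 1) ^ 10 * mm i : ℕ) : ℝ) := Nat.cast_le.2 h7
      push_cast at h8
      exact h8
    have h9 : (2 : ℝ) ^ (i + 23) = 8 * 2 ^ (i + 10) * 2 ^ 10 := by
      rw [pow_add, pow_add 2 i 10]
      norm_num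
      ring
    have h10 : (((i : ℝ) + 1) / 2) ^ 10 * mm i * 2 ^ 10 = ((i : ℝ) + 1) ^ 10 * mm i := by
      rw [div_pow]
      field_simp
    have h11 : 8 * (2 : ℝ) ^ (i + 10) ≤ (((i : ℝ) + 1) / 2) ^ 10 * mm i := by
      have h12 : 8 * (2 : ℝ) ^ (i + 10) * 2 ^ 10 ≤ (((i : ℝ) + 1) / 2) ^ 10 * mm i * 2 ^ 10 := by
        rw [h10, ← h9]
        exact h6
      exact le_of_mul_le_mul_right h12 (by positivity)
    calc 8 * Real.log x ≤ 8 * 2 ^ (i + 10) := by linarith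
      _ ≤ (((i : ℝ) + 1) / 2) ^ 10 * mm i := h11
      _ ≤ Real.log (Real.log x) ^ 10 * mm i := mul_le_mul_of_nonneg_right h5 (by linarith)
  have h5 := mul_le_mul_of_nonneg_left hkey hx0.le
  have e1 : x * (8 / (mm i : ℝ)) = 8 * x / mm i := by ring
  have e2 : x * (Real.log (Real.log x) ^ 10 / Real.log x) =
      x * Real.log (Real.log x) ^ 10 / Real.log x := by ring
  rw [e1, e2] at h5
  linarith

end Pool.Agent.H81.ILV
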