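import Pool.Agent.H95.ILV.Targets

/-!
# Many invariant levels with bounded mean kernel
-/

set_option autoImplicit false

open MeasureTheory AddCircle Filter Topology Pool.Agent.H87.Synth Pool.Agent.H23.Synth
  Pool.Agent.H95.ILV

namespace Pool.Agent.H81.ILV

theorem cl_step (S ψ j : ℕ) (hψ : 1 ≤ ψ) :
    cl S ψ (j + 1) = cl S ψ j + 2 ^ (S + j / ψ) / ψ := by
  have hp : (0 : ℝ) < ψ := by exact_mod_cast hψ
  unfold cl
  have hr : j % ψ < ψ := Nat.mod_lt _ hψ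
  have hj : ψ * (j / ψ) + j % ψ = j := Nat.div_add_mod j ψ
  rcases Nat.lt_or_ge (j % ψ + 1) ψ with h | h
  · have h1 : (j + 1) / ψ = j / ψ := by
      apply Nat.div_eq_of_lt_le
      · rw [Nat.mul_comm]
        omega
      · rw [Nat.mul_comm, Nat.mul_add]
        omega
    have h2 : (j + 1) % ψ = j % ψ + 1 := by
      have h3 := Nat.div_add_mod (j + 1) ψ
      rw [h1] at h3
      omega
    rw [h1, h2]
    push_cast
    field_simp
    ring
  · have h0 : j % ψ + 1 = ψ := by omega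
    have h4 : j + 1 = ψ * (j / ψ + 1) := by
      rw [Nat.mul_add]
      omega
    have h1 : (j + 1) / ψ = j / ψ + 1 := by
      rw [h4]
      exact Nat.mul_div_cancel_left _ hψ
    have h2 : (j + 1) % ψ = 0 := by
      rw [h4]
      exact Nat.mul_mod_right _ _
    rw [h1, h2]
    have h5 : ((j % ψ : ℕ) : ℝ) = ψ - 1 := by
      have h6 : (((j % ψ + 1 : ℕ)) : ℝ) = ψ := by rw [h0]
      push_cast at h6
      linarith
    rw [h5, ← add_assoc, pow_succ]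
    push_cast
    field_simp
    ring

theorem cl_low (S ψ j : ℕ) : (2 : ℝ) ^ (S + j / ψ) ≤ cl S ψ j := by
  unfold cl
  have h1 : (0 : ℝ) ≤ ((j % ψ : ℕ) : ℝ) / ψ := by positivity
  have h2 : (0 : ℝ) < 2 ^ (S + j / ψ) := by positivity
  nlinarith

theorem cl_next (S ψ j : ℕ) (hψ : 1 ≤ ψ) : cl S ψ (j + 1) ≤ 2 ^ (S + j / ψ + 1) := by
  have hp : (0 : ℝ) < ψ := by exact_mod_cast hψ
  rw [cl_step S ψ j hψ]
  unfold cl
  have hr : j % ψ + 1 ≤ ψ := Nat.mod_lt _ hψ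
  have h1 : ((j % ψ : ℕ) : ℝ) + 1 ≤ ψ := by exact_mod_cast hr
  have h2 : (0 : ℝ) < 2 ^ (S + j / ψ) := by positivity
  have h3 : (2 : ℝ) ^ (S + j / ψ) * (1 + ((j % ψ : ℕ) : ℝ) / ψ) + 2 ^ (S + j / ψ) / ψ =
      2 ^ (S + j / ψ) * (1 + (((j % ψ : ℕ) : ℝ) + 1) / ψ) := by
    field_simp
    ring
  rw [h3, pow_succ]
  apply mul_le_mul_of_nonneg_left _ h2.le
  have h4 : (((j % ψ : ℕ) : ℝ) + 1) / ψ ≤ 1 := by
    rw [div_le_one hp]
    exact h1
  linarith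

theorem cl_lt (S ψ j : ℕ) (hψ : 1 ≤ ψ) : cl S ψ j < 2 ^ (S + j / ψ + 1) := by
  have hp : (0 : ℝ) < ψ := by exact_mod_cast hψ
  have h1 := cl_next S ψ j hψ
  rw [cl_step S ψ j hψ] at h1
  have h2 : (0 : ℝ) < 2 ^ (S + j / ψ) / ψ := by positivity
  linarith

/-- the constant -/
noncomputable def al (C : ℝ) : ℝ := Real.log 2 / (4 * C)

/-- one level for each cell -/
theorem exists_lam {r : Setoid ℤ} {C : ℝ} (hC : 0 < C) {X : ℝ} {S ψ : ℕ} (hS : 4 ≤ S)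
    (hψ1 : 1 ≤ ψ) (hψ : 2 * C * ψ ≤ S * Real.log 2) (hX1 : (2 : ℝ) ^ (S - 1) < X)
    (hX2 : X ≤ 2 ^ S)
    (hD : ∀ x : ℝ, X ≤ x → x ≤ X ^ 2 → ∃ M : ℕ, Inv r M ∧ x < M ∧ (M : ℝ) ≤ x + C * x / Real.log x)
    (j : ℕ) (hj : j < (S - 2) * ψ) :
    ∃ M : ℕ, Inv r M ∧ cl S ψ j < M ∧ (M : ℝ) ≤ cl S ψ (j + 1) := by
  have hp : (0 : ℝ) < ψ := by exact_mod_cast hψ1
  have hdiv : j / ψ < S - 2 := (Nat.div_lt_iff_lt_mul hψ1).2 hj
  have hlow := cl_low S ψ j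
  have h2S : (2 : ℝ) ^ S ≤ 2 ^ (S + j / ψ) :=
    pow_le_pow_right₀ (by norm_num) (Nat.le_add_right _ _)
  have hup := cl_lt S ψ j hψ1
  have hx1 : X ≤ cl S ψ j := hX2.trans (h2S.trans hlow)
  have hx2 : cl S ψ j ≤ X ^ 2 := by
    have h1 : (2 : ℝ) ^ (S + j / ψ + 1) ≤ 2 ^ ((S - 1) * 2) :=
      pow_le_pow_right₀ (by norm_num) (by omega)
    rw [pow_mul] at h1
    have h2 : ((2 : ℝ) ^ (S - 1)) ^ 2 ≤ X ^ 2 := pow_le_pow_left₀ (by positivity) hX1.le 2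
    linarith
  obtain ⟨M, hM, hM1, hM2⟩ := hD _ hx1 hx2
  refine ⟨M, hM, hM1, hM2.trans ?_⟩
  rw [cl_step S ψ j hψ1]
  have hlog2 : 0 < Real.log 2 := Real.log_pos (by norm_num)
  have hSpos : (0 : ℝ) < S := by
    have : 0 < S := by omega
    exact_mod_cast this
  have hlog : (S : ℝ) * Real.log 2 ≤ Real.log (cl S ψ j) := by
    rw [← Real.log_pow]
    exact Real.log_le_log (by positivity) (h2S.trans hlow)
  have hSl : 0 < (S : ℝ) * Real.log 2 := mul_pos hSpos hlog2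
  have h5 : C * cl S ψ j / Real.log (cl S ψ j) ≤ 2 ^ (S + j / ψ) / ψ := by
    have h6 : C * cl S ψ j / Real.log (cl S ψ j) ≤
        C * 2 ^ (S + j / ψ + 1) / (S * Real.log 2) := by
      apply div_le_div₀ (by positivity) (mul_le_mul_of_nonneg_left hup.le hC.le) hSl hlog
    refine h6.trans ?_
    rw [div_le_div_iff₀ hSl hp, pow_succ]
    have h7 : (0 : ℝ) < 2 ^ (S + j / ψ) := by positivity
    nlinarith
  linarith

theorem pf_LVS (h1 : T_PKN) (h2 : T_CNT) : T_LVS := by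
  intro r C hC hD
  have hlog2 : 0 < Real.log 2 := Real.log_pos (by norm_num)
  have ha : 0 < al C := by
    unfold al
    positivity
  set a := al C with hadef
  have ha4 : 4 * C * a = Real.log 2 := by
    rw [hadef]
    unfold al
    field_simp
  set q : ℝ := √(12 * a + 64 * a ^ 2) with hq
  have hq0 : 0 ≤ q := Real.sqrt_nonneg _
  refine ⟨24 + 48 * q / a, fun L => ?_⟩
  -- the scale
  obtain ⟨n0, hn0⟩ := exists_nat_ge (1 / a)
  set S0 := max 4 (max L n0) with hS0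
  obtain ⟨X, hX0, hX⟩ := hD (2 ^ S0)
  have hXpos : 0 < X := lt_of_lt_of_le (by positivity) hX0
  set S := Nat.clog 2 ⌈X⌉₊ with hSdef
  have hceil : (2 : ℝ) ^ S0 ≤ (⌈X⌉₊ : ℝ) := hX0.trans (Nat.le_ceil X)
  have hXS : X ≤ 2 ^ S := by
    have h3 : ⌈X⌉₊ ≤ 2 ^ S := Nat.le_pow_clog (by norm_num) _
    have h4 : (⌈X⌉₊ : ℝ) ≤ ((2 ^ S : ℕ) : ℝ) := Nat.cast_le.2 h3
    push_cast at h4
    exact (Nat.le_ceil X).trans h4
  have hSS : S0 ≤ S := by
    have h3 : (2 : ℝ) ^ S0 ≤ 2 ^ S := hX0.trans hXS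
    exact (pow_le_pow_iff_right₀ (by norm_num : (1 : ℝ) < 2)).1 h3
  have hS4 : 4 ≤ S := (le_max_left _ _).trans hSS
  have hSL : L ≤ S := ((le_max_left _ _).trans (le_max_right _ _)).trans hSS
  have hSn : n0 ≤ S := ((le_max_right _ _).trans (le_max_right _ _)).trans hSS
  have hXl : (2 : ℝ) ^ (S - 1) < X := by
    have h3 : 2 ^ (S - 1) < ⌈X⌉₊ := by
      have h4 : S - 1 < Nat.clog 2 ⌈X⌉₊ := by omega
      exact (Nat.lt_clog_iff_pow_lt (by norm_num)).1 h4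
    have h5 := Nat.lt_ceil.1 h3
    push_cast at h5
    exact h5
  have haS : 1 ≤ a * S := by
    have h3 : 1 / a ≤ (S : ℝ) := hn0.trans (Nat.cast_le.2 hSn)
    rw [div_le_iff₀ ha] at h3
    linarith
  set ψ := ⌊2 * a * (S : ℝ)⌋₊ with hψ
  have hψu : (ψ : ℝ) ≤ 2 * a * S := Nat.floor_le (by positivity)
  have hψl : a * S ≤ ψ := by
    have h3 : 2 * a * (S : ℝ) < ψ + 1 := Nat.lt_floor_add_one _
    linarith
  have hψ1 : 1 ≤ ψ := by
    have h3 : (1 : ℝ) ≤ ψ := haS.trans hψl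
    exact_mod_cast h3
  have hψC : 2 * C * ψ ≤ S * Real.log 2 := by
    have h3 := mul_le_mul_of_nonneg_left hψu (by positivity : (0 : ℝ) ≤ 2 * C)
    have h4 : 2 * C * (2 * a * S) = S * (4 * C * a) := by ring
    rw [h4, ha4] at h3
    exact h3
  -- the levels
  have hex : ∀ j, ∃ M : ℕ, j < (S - 2) * ψ → Inv r M ∧ cl S ψ j < M ∧ (M : ℝ) ≤ cl S ψ (j + 1) := by
    intro j
    by_cases hj : j < (S - 2) * ψ
    · obtain ⟨M, hM⟩ := exists_lam hC hS4 hψ1 hψC hXl hXS hX j hj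
      exact ⟨M, fun _ => hM⟩
    · exact ⟨0, fun h => absurd h hj⟩
  choose lam hlam using hex
  have hR1 : 1 ≤ (S - 2) * ψ := Nat.mul_pos (by omega) hψ1
  have hlow : ∀ j < (S - 2) * ψ, 2 ^ S ≤ lam j := by
    intro j hj
    have h3 := (hlam j hj).2.1
    have h4 := cl_low S ψ j
    have h5 : (2 : ℝ) ^ S ≤ 2 ^ (S + j / ψ) :=
      pow_le_pow_right₀ (by norm_num) (Nat.le_add_right _ _)
    have h6 : ((2 ^ S : ℕ) : ℝ) ≤ (lam j : ℝ) := by
      push_cast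
      linarith
    exact Nat.cast_le.1 h6
  refine ⟨(S - 2) * ψ, lam, hR1, ?_, ?_⟩
  · intro j hj
    refine ⟨(hlam j hj).1, ?_⟩
    have h3 := hlow j hj
    have h4 : S < 2 ^ S := Nat.lt_two_pow_self
    omega
  · have hT : ∀ j < (S - 2) * ψ, 1 ≤ lam j ∧ lam j < 2 ^ (2 * S - 1) := by
      intro j hj
      refine ⟨(Nat.one_le_two_pow).trans (hlow j hj), ?_⟩
      have hdiv : j / ψ < S - 2 := (Nat.div_lt_iff_lt_mul hψ1).2 hj
      have h3 := (hlam j hj).2.2.trans (cl_next S ψ j hψ1)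
      have h4 : (2 : ℝ) ^ (S + j / ψ + 1) < 2 ^ (2 * S - 1) :=
        pow_lt_pow_right₀ (by norm_num) (by omega)
      have h5 : (lam j : ℝ) < ((2 ^ (2 * S - 1) : ℕ) : ℝ) := by
        push_cast
        linarith
      exact Nat.cast_lt.1 h5
    have hK := h2 S (S - 2) ψ lam hψ1 (fun j hj => (hlam j hj).2)
    have hmain := h1 ((S - 2) * ψ) (2 * S - 1) lam _ hT (fun t _ => hK t)
    refine hmain.trans ?_
    have hR : ((S - 2 : ℕ) : ℝ) = S - 2 := by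
      rw [Nat.cast_sub (by omega)]
      norm_num
    have hTT : ((2 * S - 1 : ℕ) : ℝ) = 2 * S - 1 := by
      rw [Nat.cast_sub (by omega)]
      push_cast
      ring
    have hSr : (4 : ℝ) ≤ S := by exact_mod_cast hS4
    rw [Nat.cast_mul, hR, hTT]
    have hsq : √(2 * (3 * (((S : ℝ) - 2) * ψ) + 8 * (ψ : ℝ) ^ 2)) ≤ q * S := by
      rw [hq, ← Real.sqrt_sq (by linarith : (0 : ℝ) ≤ S), ← Real.sqrt_mul (by positivity)]
      apply Real.sqrt_le_sqrt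
      rw [Real.sqrt_sq (by linarith : (0 : ℝ) ≤ S)]
      have h3 : ((S : ℝ) - 2) * ψ ≤ S * (2 * a * S) := by
        apply mul_le_mul (by linarith) hψu (by positivity) (by linarith)
      have h4 : (ψ : ℝ) ^ 2 ≤ (2 * a * S) ^ 2 := pow_le_pow_left₀ (by positivity) hψu 2
      nlinarith
    have hM : a * (S : ℝ) ^ 2 / 2 ≤ ((S : ℝ) - 2) * ψ := by
      have h3 : (S : ℝ) / 2 * (a * S) ≤ ((S : ℝ) - 2) * ψ := by
        apply mul_le_mul (by linarith) hψl (by positivity) (by linarith)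
      nlinarith
    have h8 : 8 * (2 * (S : ℝ) - 1 + 2) * √(2 * (3 * (((S : ℝ) - 2) * ψ) + 8 * (ψ : ℝ) ^ 2)) ≤
        24 * q * (S : ℝ) ^ 2 := by
      calc 8 * (2 * (S : ℝ) - 1 + 2) * √(2 * (3 * (((S : ℝ) - 2) * ψ) + 8 * (ψ : ℝ) ^ 2)) ≤
          8 * (3 * (S : ℝ)) * (q * S) := by
            apply mul_le_mul (by linarith) hsq (Real.sqrt_nonneg _) (by linarith)
        _ = 24 * q * (S : ℝ) ^ 2 := by ring
    have h9 : 24 * q * (S : ℝ) ^ 2 ≤ 48 * q / a * (((S : ℝ) - 2) * ψ) := by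
      have h10 := mul_le_mul_of_nonneg_left hM (by positivity : (0 : ℝ) ≤ 48 * q / a)
      have h11 : 48 * q / a * (a * (S : ℝ) ^ 2 / 2) = 24 * q * (S : ℝ) ^ 2 := by
        field_simp
        ring
      rw [h11] at h10
      exact h10
    have h12 : (24 + 48 * q / a) * (((S : ℝ) - 2) * ψ) =
        24 * (((S : ℝ) - 2) * ψ) + 48 * q / a * (((S : ℝ) - 2) * ψ) := by ring
    rw [h12]
    linarith

end Pool.Agent.H81.ILV
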